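import Pool.Agent.P.MP_7578b2_co.All.Disc

namespace Pool.Agent.Results.MP_7578b2_co.NoUniversal

open Pool.Agent.P.MP_7578b2_co.All

/-- `S` is the intersection of the closed unit ball of Euclidean `(d+1)`-space with an affine
hyperplane. -/
def IsSlice (d : ℕ) (S : Set (EuclideanSpace ℝ (Fin (d + 1)))) : Prop :=
  ∃ (n : EuclideanSpace ℝ (Fin (d + 1))) (c : ℝ), n ≠ 0 ∧
    S = Metric.closedBall 0 1 ∩ {x | inner ℝ n x = c}

/-- `G` is isomorphic to the intersection graph of a family of slices. -/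
def IsSphereGraph (d : ℕ) {W : Type*} (G : SimpleGraph W) : Prop :=
  ∃ f : W → Set (EuclideanSpace ℝ (Fin (d + 1))), Function.Injective f ∧
    (∀ v, IsSlice d (f v)) ∧ ∀ v w, G.Adj v w ↔ v ≠ w ∧ (f v ∩ f w).Nonempty

theorem result (d : ℕ) (hd : 2 ≤ d) {W : Type*} [Countable W] (U : SimpleGraph W)
    (hU : IsSphereGraph d U) :
    ∃ (X : Type) (_ : Countable X) (G : SimpleGraph X),
      IsSphereGraph d G ∧ IsEmpty (G ↪g U) := by
  classical
  obtain ⟨m, rfl⟩ : ∃ m, d = m + 2 := ⟨d - 2, by omega⟩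
  by_contra hcon
  have emb : ∀ (X : Type) [Countable X] (G : SimpleGraph X), IsSphereGraph (m + 2) G →
      Nonempty (G ↪g U) := by
    intro X hX G hG
    by_contra h
    exact hcon ⟨X, hX, G, hG, not_nonempty_iff.mp h⟩
  obtain ⟨g, -, g2, g3⟩ := hU
  have isl : ∀ v : EuclideanSpace ℝ (Fin (m + 3)) × ℝ, bl v v = 1 → IsSlice (m + 2) (slice v) :=
    fun v hv => ⟨v.1, v.2, fst_ne_zero hv, rfl⟩
  obtain ⟨u0⟩ : Nonempty W := by
    obtain ⟨ι⟩ := emb Unit ⊥ ⟨fun _ => slice (EuclideanSpace.single 0 1, 0),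
      fun _ _ _ => rfl, fun _ => isl _ (by simp [bl]), fun _ _ => by simp⟩
    exact ⟨ι ()⟩
  let ψ : W → EuclideanSpace ℝ (Fin (m + 3)) × ℝ := fun u =>
    if h : ∃ v, bl v v = 1 ∧ slice v = g u then h.choose else 0
  have hψ : ∀ u, (∃ v, bl v v = 1 ∧ slice v = g u) →
      bl (ψ u) (ψ u) = 1 ∧ slice (ψ u) = g u := by
    intro u h
    simp only [ψ, dif_pos h]
    exact h.choose_spec
  obtain ⟨F, hF⟩ := rig_all m
  have sub : Set.Ioo 0 (Real.arcosh 7) ⊆ Set.range (fun l : List W => F (l.map ψ)) := by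
    intro t ht
    obtain ⟨l, S, S1, S2, S3⟩ := hF t ht
    have nb : ∀ v : EuclideanSpace ℝ (Fin (m + 3)) × ℝ, ∃ n1 n2, bl v v = 1 →
        bl n1 n1 = 1 ∧ bl n2 n2 = 1 ∧ |bl v n1| ≤ 1 ∧ |bl v n2| ≤ 1 ∧ ¬ |bl n1 n2| ≤ 1 := by
      intro v
      by_cases hv : bl v v = 1
      · obtain ⟨n1, n2, h⟩ := exists_nbrs hv
        exact ⟨n1, n2, fun _ => h⟩
      · exact ⟨v, v, fun h => absurd h hv⟩
    choose n1 n2 hn using nb
    let S' := S ∪ (n1 '' S ∪ n2 '' S)
    have S'u : ∀ v ∈ S', bl v v = 1 := by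
      rintro v (hv | ⟨w, hw, rfl⟩ | ⟨w, hw, rfl⟩)
      · exact S2 v hv
      · exact (hn w (S2 w hw)).1
      · exact (hn w (S2 w hw)).2.1
    have S'c : (slice '' S').Countable := (S1.union ((S1.image _).union (S1.image _))).image _
    have := S'c.to_subtype
    let G : SimpleGraph (slice '' S') :=
      { Adj := fun a b => a ≠ b ∧ (a.1 ∩ b.1).Nonempty
        symm := ⟨fun a b h => ⟨h.1.symm, by rw [Set.inter_comm]; exact h.2⟩⟩
        loopless := ⟨fun a h => h.1 rfl⟩ }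
    have hG : IsSphereGraph (m + 2) G := by
      refine ⟨Subtype.val, Subtype.val_injective, ?_, fun _ _ => Iff.rfl⟩
      rintro ⟨_, v, hv, rfl⟩
      exact isl v (S'u v hv)
    obtain ⟨ι⟩ := emb _ G hG
    let vx : ∀ v ∈ S', (slice '' S' : Set _) := fun v hv => ⟨slice v, v, hv, rfl⟩
    have adj : ∀ v (hv : v ∈ S') w (hw : w ∈ S'), slice v ≠ slice w →
        (|bl v w| ≤ 1 ↔ (g (ι (vx v hv)) ∩ g (ι (vx w hw))).Nonempty) := by
      intro v hv w hw hne
      have hne' : vx v hv ≠ vx w hw := fun e => hne (congrArg Subtype.val e)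
      rw [← slice_meet_iff (S'u v hv) (S'u w hw)]
      have e1 : G.Adj (vx v hv) (vx w hw) ↔ (slice v ∩ slice w).Nonempty :=
        ⟨fun h => h.2, fun h => ⟨hne', h⟩⟩
      rw [← e1, ← ι.map_adj_iff, g3]
      exact ⟨fun h => h.2, fun h => ⟨ι.injective.ne hne', h⟩⟩
    have prop : ∀ v (hv : v ∈ S), ∃ w, bl w w = 1 ∧ slice w = g (ι (vx v (Or.inl hv))) := by
      intro v hv
      obtain ⟨u1, u2, m1, m2, m3⟩ := hn v (S2 v hv)
      have h1 : n1 v ∈ S' := Or.inr (Or.inl ⟨v, hv, rfl⟩)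
      have h2 : n2 v ∈ S' := Or.inr (Or.inr ⟨v, hv, rfl⟩)
      have d1 : slice v ≠ slice (n1 v) := fun e => m3 (by
        rw [← slice_meet_iff u1 u2, ← e, slice_meet_iff (S2 v hv) u2]; exact m2)
      have d2 : slice v ≠ slice (n2 v) := fun e => m3 (by
        rw [← slice_meet_iff u1 u2, ← e, slice_meet_iff u1 (S2 v hv), bl_comm]; exact m1)
      have d3 : slice (n1 v) ≠ slice (n2 v) := fun e => m3 (by
        rw [← slice_meet_iff u1 u2, ← e, slice_meet_iff u1 u1, u1]; norm_num)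
      obtain ⟨p, p1, p2⟩ := (adj v (Or.inl hv) _ h1 d1).mp m1
      obtain ⟨q, q1, q2⟩ := (adj v (Or.inl hv) _ h2 d2).mp m2
      have hpq : p ≠ q := fun e => m3 ((adj _ h1 _ h2 d3).mpr ⟨p, p2, e ▸ q2⟩)
      obtain ⟨nn, c, n0, e⟩ := g2 (ι (vx v (Or.inl hv)))
      rw [e] at p1 q1 ⊢
      exact exists_vec n0 hpq p1 q1
    let κ : EuclideanSpace ℝ (Fin (m + 3)) × ℝ → W := fun v =>
      if hv : v ∈ S then ι (vx v (Or.inl hv)) else u0
    have hκ : ∀ v (hv : v ∈ S), κ v = ι (vx v (Or.inl hv)) := fun v hv => dif_pos hv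
    have iff : ∀ v ∈ S, ∀ w ∈ S, |bl (ψ (κ v)) (ψ (κ w))| ≤ 1 ↔ |bl v w| ≤ 1 := by
      intro v hv w hw
      obtain ⟨a1, a2⟩ := hψ _ (prop v hv)
      obtain ⟨b1, b2⟩ := hψ _ (prop w hw)
      rw [hκ v hv, hκ w hw]
      by_cases e : slice v = slice w
      · have e' : vx v (Or.inl hv) = vx w (Or.inl hw) := Subtype.ext e
        refine iff_of_true ?_ ?_
        · rw [e', b1]; norm_num
        · rw [← slice_meet_iff (S2 v hv) (S2 w hw), e, slice_meet_iff (S2 w hw) (S2 w hw),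
            S2 w hw]
          norm_num
      · rw [adj v (Or.inl hv) w (Or.inl hw) e, ← slice_meet_iff a1 b1, a2, b2]
    refine ⟨l.map κ, ?_⟩
    beta_reduce
    rw [List.map_map]
    refine S3 (ψ ∘ κ) ⟨fun v hv => ?_, fun v hv w hw e => (iff v hv w hw).mpr e.le,
      fun v hv w hw e => fun e' => e ((iff v hv w hw).mp e')⟩
    rw [Function.comp, hκ v hv]
    exact (hψ _ (prop v hv)).1
  have cnt : (Set.Ioo 0 (Real.arcosh 7)).Countable := (Set.countable_range _).mono sub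
  have := cnt.measure_zero MeasureTheory.volume
  rw [Real.volume_Ioo, ENNReal.ofReal_eq_zero] at this
  linarith [Real.arcosh_pos (show (1 : ℝ) < 7 by norm_num)]

end Pool.Agent.Results.MP_7578b2_co.NoUniversal
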